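import Pool.Agent.EGF.StmtsP

/-!
Row REG2 of the squad EGF: local regularity with a small additive loss.
-/

set_option autoImplicit false

open Finset

namespace Pool.Agent.EGF.H26

open Pool.Agent.EGF

variable {V : Type} [DecidableEq V] {k : ℕ}

theorem ex_left (c : V → V → Fin k) (C : Finset (Fin k)) {A X : Finset V} (h : X ⊆ A)
    (B : Finset V) : (ex c C A B).card = (ex c C X B).card + (ex c C (A \ X) B).card := by
  rw [← Finset.card_filter_add_card_filter_not (s := ex c C A B) (fun p => p.1 ∈ X)]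
  congr 2
  · ext p
    simp only [ex, mem_filter, mem_product]
    constructor
    · rintro ⟨⟨⟨h1, h2⟩, h3⟩, h4⟩
      exact ⟨⟨h4, h2⟩, h3⟩
    · rintro ⟨⟨h4, h2⟩, h3⟩
      exact ⟨⟨⟨h h4, h2⟩, h3⟩, h4⟩
  · ext p
    simp only [ex, mem_filter, mem_product, mem_sdiff]
    constructor
    · rintro ⟨⟨⟨h1, h2⟩, h3⟩, h4⟩
      exact ⟨⟨⟨h1, h4⟩, h2⟩, h3⟩
    · rintro ⟨⟨⟨h1, h4⟩, h2⟩, h3⟩
      exact ⟨⟨⟨h1, h2⟩, h3⟩, h4⟩

theorem ex_right (c : V → V → Fin k) (C : Finset (Fin k)) (A : Finset V) {B Y : Finset V}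
    (h : Y ⊆ B) : (ex c C A B).card = (ex c C A Y).card + (ex c C A (B \ Y)).card := by
  rw [← Finset.card_filter_add_card_filter_not (s := ex c C A B) (fun p => p.2 ∈ Y)]
  congr 2
  · ext p
    simp only [ex, mem_filter, mem_product]
    constructor
    · rintro ⟨⟨⟨h1, h2⟩, h3⟩, h4⟩
      exact ⟨⟨h1, h4⟩, h3⟩
    · rintro ⟨⟨h1, h4⟩, h3⟩
      exact ⟨⟨⟨h1, h h4⟩, h3⟩, h4⟩
  · ext p
    simp only [ex, mem_filter, mem_product, mem_sdiff]
    constructor
    · rintro ⟨⟨⟨h1, h2⟩, h3⟩, h4⟩
      exact ⟨⟨h1, h2, h4⟩, h3⟩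
    · rintro ⟨⟨h1, h2, h4⟩, h3⟩
      exact ⟨⟨⟨h1, h2⟩, h3⟩, h4⟩

theorem reg2 : Reg2Stmt := by
  intro V _ k c C A B κ κ' ρ hA hB hκ hκ' hρ hd
  have ha0 : (0 : ℝ) < A.card := by exact_mod_cast hA.card_pos
  have hb0 : (0 : ℝ) < B.card := by exact_mod_cast hB.card_pos
  set μ : ℝ := κ' * ρ ^ 2 / 3 with hμ
  have hμ0 : 0 < μ := by positivity
  let F : Finset (Finset V × Finset V) :=
    (A.powerset ×ˢ B.powerset).filter fun p => p.1.Nonempty ∧ p.2.Nonempty
  let Φ : Finset V × Finset V → ℝ := fun p =>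
    ((ex c C p.1 p.2).card : ℝ) / (p.1.card * p.2.card) +
      μ * (Real.log A.card + Real.log B.card - Real.log p.1.card - Real.log p.2.card)
  have hF : (A, B) ∈ F := by
    simp only [F, mem_filter, mem_product, mem_powerset]
    exact ⟨⟨Subset.refl _, Subset.refl _⟩, hA, hB⟩
  obtain ⟨⟨A1, B1⟩, h1, hmin⟩ := Finset.exists_min_image F Φ ⟨_, hF⟩
  simp only [F, mem_filter, mem_product, mem_powerset] at h1
  obtain ⟨⟨hA1, hB1⟩, hA1n, hB1n⟩ := h1
  have ha1 : (0 : ℝ) < A1.card := by exact_mod_cast hA1n.card_pos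
  have hb1 : (0 : ℝ) < B1.card := by exact_mod_cast hB1n.card_pos
  have hla : Real.log A1.card ≤ Real.log A.card :=
    Real.log_le_log ha1 (by exact_mod_cast card_le_card hA1)
  have hlb : Real.log B1.card ≤ Real.log B.card :=
    Real.log_le_log hb1 (by exact_mod_cast card_le_card hB1)
  -- the value of `Φ` at the minimum
  have hΦ : ((ex c C A1 B1).card : ℝ) / (A1.card * B1.card) +
      μ * (Real.log A.card + Real.log B.card - Real.log A1.card - Real.log B1.card) ≤ κ := by
    have h2 : Φ (A1, B1) ≤ Φ (A, B) := hmin _ hF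
    have h3 : Φ (A, B) ≤ κ := by
      simp only [Φ]
      have h4 : ((ex c C A B).card : ℝ) / (A.card * B.card) ≤ κ := by
        rw [div_le_iff₀ (by positivity)]
        exact hd
      have h5 : Real.log A.card + Real.log B.card - Real.log A.card - Real.log B.card = 0 := by
        ring
      rw [h5, mul_zero, add_zero]
      exact h4
    exact h2.trans h3
  have hP : (0 : ℝ) < (A1.card : ℝ) * B1.card := by positivity
  have he1 : ((ex c C A1 B1).card : ℝ) ≤ κ * (A1.card * B1.card) := by
    rw [← div_le_iff₀ hP]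
    have : 0 ≤ μ * (Real.log A.card + Real.log B.card - Real.log A1.card - Real.log B1.card) :=
      mul_nonneg hμ0.le (by linarith)
    linarith
  have hlog : Real.log A.card + Real.log B.card - Real.log A1.card - Real.log B1.card ≤
      3 * κ / (κ' * ρ ^ 2) := by
    have h2 : μ * (Real.log A.card + Real.log B.card - Real.log A1.card - Real.log B1.card) ≤ κ := by
      have : (0 : ℝ) ≤ ((ex c C A1 B1).card : ℝ) / (A1.card * B1.card) := by positivity
      linarith
    have h3 : 3 * κ / (κ' * ρ ^ 2) = κ / μ := by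
      rw [hμ]
      field_simp
    rw [h3, le_div_iff₀ hμ0, mul_comm]
    exact h2
  refine ⟨A1, hA1, B1, hB1, hA1n, hB1n, by linarith, by linarith, ?_⟩
  -- lower bound for the other rectangles
  have key : ∀ X ⊆ A1, ∀ Y ⊆ B1, (X.card : ℝ) * Y.card / (A1.card * B1.card) *
      (ex c C A1 B1).card - μ * (A1.card * B1.card) ≤ ((ex c C X Y).card : ℝ) := by
    intro X hX Y hY
    rcases X.eq_empty_or_nonempty with hXe | hXn
    · subst hXe
      have : 0 < μ * ((A1.card : ℝ) * B1.card) := by positivity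
      simp only [card_empty, Nat.cast_zero, zero_mul, zero_div, zero_sub]
      have h2 : (0 : ℝ) ≤ ((ex c C (∅ : Finset V) Y).card : ℝ) := Nat.cast_nonneg _
      linarith
    rcases Y.eq_empty_or_nonempty with hYe | hYn
    · subst hYe
      have : 0 < μ * ((A1.card : ℝ) * B1.card) := by positivity
      simp only [card_empty, Nat.cast_zero, mul_zero, zero_div, zero_mul, zero_sub]
      have h2 : (0 : ℝ) ≤ ((ex c C X (∅ : Finset V)).card : ℝ) := Nat.cast_nonneg _
      linarith
    have hx : (0 : ℝ) < X.card := by exact_mod_cast hXn.card_pos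
    have hy : (0 : ℝ) < Y.card := by exact_mod_cast hYn.card_pos
    have hm : Φ (A1, B1) ≤ Φ (X, Y) := by
      apply hmin
      simp only [F, mem_filter, mem_product, mem_powerset]
      exact ⟨⟨hX.trans hA1, hY.trans hB1⟩, hXn, hYn⟩
    simp only [Φ] at hm
    have hlog2 : Real.log A1.card + Real.log B1.card - Real.log X.card - Real.log Y.card ≤
        (A1.card : ℝ) * B1.card / (X.card * Y.card) := by
      have e1 : Real.log ((A1.card : ℝ) * B1.card / (X.card * Y.card)) =
          Real.log A1.card + Real.log B1.card - Real.log X.card - Real.log Y.card := by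
        rw [Real.log_div (by positivity) (by positivity), Real.log_mul ha1.ne' hb1.ne',
          Real.log_mul hx.ne' hy.ne']
        ring
      rw [← e1]
      have := Real.log_le_sub_one_of_pos
        (show 0 < (A1.card : ℝ) * B1.card / (X.card * Y.card) by positivity)
      linarith
    have h3 : ((ex c C A1 B1).card : ℝ) / (A1.card * B1.card) -
        μ * ((A1.card : ℝ) * B1.card / (X.card * Y.card)) ≤
        ((ex c C X Y).card : ℝ) / (X.card * Y.card) := by
      have h4 := mul_le_mul_of_nonneg_left hlog2 hμ0.le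
      nlinarith
    have hxy : (0 : ℝ) < (X.card : ℝ) * Y.card := by positivity
    rw [le_div_iff₀ hxy] at h3
    have h5 : (((ex c C A1 B1).card : ℝ) / (A1.card * B1.card) -
        μ * ((A1.card : ℝ) * B1.card / (X.card * Y.card))) * (X.card * Y.card) =
        (X.card : ℝ) * Y.card / (A1.card * B1.card) * (ex c C A1 B1).card -
          μ * (A1.card * B1.card) := by
      field_simp
    rw [h5] at h3
    exact h3
  intro A' hA' B' hB' hρA hρB
  have h1 := key A' hA' (B1 \ B') sdiff_subset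
  have h2 := key (A1 \ A') sdiff_subset B1 (Subset.refl _)
  have e1 := ex_left c C hA' B1
  have e2 := ex_right c C A' hB'
  have c1 : ((A1 \ A').card : ℝ) = A1.card - A'.card := by
    rw [card_sdiff_of_subset hA', Nat.cast_sub (card_le_card hA')]
  have c2 : ((B1 \ B').card : ℝ) = B1.card - B'.card := by
    rw [card_sdiff_of_subset hB', Nat.cast_sub (card_le_card hB')]
  rw [c2] at h1
  rw [c1] at h2
  have e1' : ((ex c C A1 B1).card : ℝ) = (ex c C A' B1).card + (ex c C (A1 \ A') B1).card := by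
    exact_mod_cast e1
  have e2' : ((ex c C A' B1).card : ℝ) = (ex c C A' B').card + (ex c C A' (B1 \ B')).card := by
    exact_mod_cast e2
  set P : ℝ := (A1.card : ℝ) * B1.card with hPd
  set E : ℝ := ((ex c C A1 B1).card : ℝ) with hE
  have h3 : ((ex c C A' B').card : ℝ) ≤ (A'.card : ℝ) * B'.card / P * E + 2 * μ * P := by
    have h4 : (A'.card : ℝ) * (B1.card - B'.card) / P * E + ((A1.card : ℝ) - A'.card) * B1.card / P * E
        = E - (A'.card : ℝ) * B'.card / P * E := by
      rw [hPd]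
      field_simp
      ring
    linarith
  have hw : ρ ^ 2 * P ≤ (A'.card : ℝ) * B'.card := by
    have := mul_le_mul hρA hρB (by positivity) (Nat.cast_nonneg _)
    calc ρ ^ 2 * P = (ρ * A1.card) * (ρ * B1.card) := by rw [hPd]; ring
      _ ≤ _ := this
  have h5 : (A'.card : ℝ) * B'.card / P * E ≤ κ * (A'.card * B'.card) := by
    rw [div_mul_eq_mul_div, div_le_iff₀ hP]
    have : (A'.card : ℝ) * B'.card * E ≤ (A'.card : ℝ) * B'.card * (κ * P) :=
      mul_le_mul_of_nonneg_left he1 (by positivity)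
    calc (A'.card : ℝ) * B'.card * E ≤ (A'.card : ℝ) * B'.card * (κ * P) := this
      _ = κ * (A'.card * B'.card) * P := by ring
  have h6 : 2 * μ * P ≤ κ' * (A'.card * B'.card) := by
    have h7 : 2 * μ * P = 2 / 3 * (κ' * (ρ ^ 2 * P)) := by rw [hμ]; ring
    have h8 : κ' * (ρ ^ 2 * P) ≤ κ' * (A'.card * B'.card) :=
      mul_le_mul_of_nonneg_left hw hκ'.le
    have h9 : 0 ≤ κ' * (ρ ^ 2 * P) := by positivity
    rw [h7]
    linarith
  calc ((ex c C A' B').card : ℝ) ≤ _ := h3
    _ ≤ κ * (A'.card * B'.card) + κ' * (A'.card * B'.card) := add_le_add h5 h6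
    _ = (κ + κ') * (A'.card * B'.card) := by ring

end Pool.Agent.EGF.H26
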