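import Pool.Agent.EGF.StmtsQ

/-!
# Row BOO of EGF (helper26): bootstrapping to constant flatness
-/

set_option autoImplicit false

open Finset

namespace Pool.Agent.EGF.H26

open Pool.Agent.EGF

theorem boo_flat_mono {V : Type} [DecidableEq V] {k : ℕ} {c : V → V → Fin k} {W : Finset V} {s : ℕ}
    {a b : ℝ} (h : Flat c W s a) (hab : a ≤ b) : Flat c W s b :=
  fun S hS hs => (h S hS hs).trans hab

/-- `log s ≤ 8 √y` for `s = 32 y^4 + 1` -/
theorem boo_log {y : ℝ} (hy : 4 ≤ y) : Real.log (32 * y ^ 4 + 1) ≤ 4 + 4 * Real.log y := by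
  have hy0 : 0 < y := by linarith
  have h1 : 32 * y ^ 4 + 1 ≤ 33 * y ^ 4 := by
    have : (1 : ℝ) ≤ y ^ 4 := one_le_pow₀ (by linarith)
    linarith
  have h2 : Real.log (32 * y ^ 4 + 1) ≤ Real.log (33 * y ^ 4) :=
    Real.log_le_log (by positivity) h1
  have h3 : Real.log (33 * y ^ 4) = Real.log 33 + 4 * Real.log y := by
    rw [Real.log_mul (by norm_num) (by positivity), Real.log_pow]
    norm_num
  have h4 : Real.log 33 ≤ 4 := by
    rw [Real.log_le_iff_le_exp (by norm_num)]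
    have h5 : Real.exp 4 = Real.exp 1 ^ 4 := by
      rw [← Real.exp_nat_mul]
      norm_num
    have h6 : (2.7 : ℝ) ≤ Real.exp 1 := by
      have := Real.exp_one_gt_d9
      linarith
    have h8 : (2.7 : ℝ) ^ 4 ≤ Real.exp 1 ^ 4 := pow_le_pow_left₀ (by norm_num) h6 4
    rw [h5]
    refine le_trans ?_ h8
    norm_num
  linarith

theorem boo (hStp : StpStmt) : BooStmt := by
  intro V _ k c θ r n
  induction n with
  | zero =>
    intro W hsym hno hθ hθ1 hr hW hF hpal hlog
    have hr1 : (1 : ℝ) ≤ r := by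
      have h1 : (1 : ℝ) ≤ 128 / θ := by rw [le_div_iff₀ hθ]; linarith
      nlinarith
    have hW0 : 0 ≤ Real.log W.card := Real.log_natCast_nonneg _
    refine ⟨W, Finset.Subset.refl _, hW, ?_, ?_, ?_⟩
    · simpa using hF
    · refine le_trans (le_of_eq ?_) hpal
      norm_num
      left
      ring
    · have h2 : (1 : ℝ) ≤ (r : ℝ) ^ (2 ^ (0 + 1)) := one_le_pow₀ hr1
      nlinarith
  | succ n ih =>
    intro W hsym hno hθ hθ1 hr hW hF hpal hlog
    have hθ128 : (128 : ℝ) ≤ 128 / θ := by rw [le_div_iff₀ hθ]; nlinarith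
    have hr0 : (16384 : ℝ) ≤ r := by nlinarith
    have hr1 : (1 : ℝ) ≤ r := by linarith
    obtain ⟨y, hy⟩ : ∃ y : ℝ, y = (r : ℝ) ^ (2 ^ n) := ⟨_, rfl⟩
    have hy2 : (r : ℝ) ^ (2 ^ (n + 1)) = y ^ 2 := by
      rw [hy, ← pow_mul, pow_succ 2 n]
    have hy4 : (r : ℝ) ^ (2 ^ (n + 1 + 1)) = y ^ 4 := by
      rw [hy, ← pow_mul]
      congr 1
      ring
    have hyr : (r : ℝ) ≤ y := by
      rw [hy]
      exact le_self_pow₀ hr1 (by positivity)
    have hyn : 16384 * (2 : ℝ) ^ n ≤ y := by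
      have h1 : n + 1 ≤ 2 ^ n := Nat.lt_two_pow_self
      have h2 : (r : ℝ) ^ (n + 1) ≤ y := by
        rw [hy]
        exact pow_le_pow_right₀ hr1 h1
      have h3 : (2 : ℝ) ^ n ≤ (r : ℝ) ^ n := pow_le_pow_left₀ (by norm_num) (by linarith) n
      have h4 : (r : ℝ) ^ (n + 1) = (r : ℝ) ^ n * r := pow_succ _ _
      have h5 : (0 : ℝ) < 2 ^ n := by positivity
      nlinarith
    have hy0 : (16384 : ℝ) ≤ y := hr0.trans hyr
    have hsq : 128 / θ ≤ √y := by
      rw [Real.le_sqrt (by positivity) (by linarith)]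
      exact hr.trans hyr
    have hcast4 : ((32 * r ^ (2 ^ (n + 1 + 1)) + 1 : ℕ) : ℝ) = 32 * y ^ 4 + 1 := by
      push_cast
      rw [hy4]
    have hcast2 : ((32 * r ^ (2 ^ (n + 1)) + 1 : ℕ) : ℝ) = 32 * y ^ 2 + 1 := by
      push_cast
      rw [hy2]
    rw [hy4] at hF hlog
    have hk0 : 0 ≤ Real.log k := Real.log_natCast_nonneg _
    have hW0 : 0 ≤ Real.log W.card := Real.log_natCast_nonneg _
    obtain ⟨z, hz⟩ : ∃ z : ℝ, z = 1 / 2 ^ (n + 4) := ⟨_, rfl⟩
    have hz1 : (1 : ℝ) / 2 ^ (n + 1) = 8 * z := by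
      rw [hz, pow_add, pow_add]
      field_simp
      norm_num
    have hz0 : (1 : ℝ) / 2 ^ n = 16 * z := by
      rw [hz, pow_add]
      field_simp
      norm_num
    have hzpos : 0 < z := by rw [hz]; positivity
    have hyz : 30 ≤ y * (16 * z) := by
      rw [← hz0, mul_one_div, le_div_iff₀ (by positivity)]
      have : (0 : ℝ) < 2 ^ n := by positivity
      linarith
    have hz16 : 16 * z ≤ 1 := by
      rw [← hz0, div_le_one (by positivity)]
      exact one_le_pow₀ (by norm_num)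
    have hlogs : Real.log ((32 * r ^ (2 ^ (n + 1 + 1)) + 1 : ℕ) : ℝ) ≤ 4 + 4 * Real.log y := by
      rw [hcast4]
      exact boo_log (by linarith)
    have hlogy : Real.log y ≤ y - 1 := Real.log_le_sub_one_of_pos (by linarith)
    have hsqpos : 0 < √y := Real.sqrt_pos.2 (by linarith)
    have hsqy : √y * √y = y := Real.mul_self_sqrt (by linarith)
    have hlogy2 : Real.log y ≤ 2 * √y - 2 := by
      have h1 : Real.log y = 2 * Real.log √y := by
        rw [← Real.log_rpow hsqpos]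
        congr 1
        rw [show (2 : ℝ) = ((2 : ℕ) : ℝ) by norm_num, Real.rpow_natCast, sq, hsqy]
      have h2 : Real.log √y ≤ √y - 1 := Real.log_le_sub_one_of_pos hsqpos
      linarith
    have hlogs2 : Real.log ((32 * r ^ (2 ^ (n + 1 + 1)) + 1 : ℕ) : ℝ) ≤ 8 * √y := by linarith
    have hlogs0 : 0 ≤ Real.log ((32 * r ^ (2 ^ (n + 1 + 1)) + 1 : ℕ) : ℝ) :=
      Real.log_natCast_nonneg _
    obtain ⟨β, hβ⟩ : ∃ β : ℝ, β = θ * (1 / 2 + 1 / 8 * (1 - 1 / 2 ^ (n + 1))) := ⟨_, rfl⟩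
    have hβ1 : θ / 2 ≤ β := by
      rw [hβ, hz1]
      nlinarith
    have hβ2 : β ≤ 5 / 8 * θ := by
      rw [hβ, hz1]
      nlinarith
    have hy00 : 0 < y := by linarith
    have hyinv : 1 / y ≤ 1 / 4 := one_div_le_one_div_of_le (by norm_num) (by linarith)
    have hyinv0 : 0 < 1 / y := by positivity
    have hsize : Real.log k + 8 * Real.log ((32 * r ^ (2 ^ (n + 1 + 1)) + 1 : ℕ) : ℝ) + 8 ≤
        1 / y * (1 / y) * Real.log W.card := by
      have h1 : 1 / y * (1 / y) * (y ^ 4 * (Real.log k + 40)) ≤ 1 / y * (1 / y) * Real.log W.card :=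
        mul_le_mul_of_nonneg_left hlog (by positivity)
      have h2 : 1 / y * (1 / y) * (y ^ 4 * (Real.log k + 40)) = y ^ 2 * (Real.log k + 40) := by
        field_simp
      rw [h2] at h1
      nlinarith [mul_nonneg (by nlinarith : (0 : ℝ) ≤ y ^ 2 - 1) hk0]
    obtain ⟨W', hW'W, hW', hF', hp', hl'⟩ := hStp V k c W β (1 / y) (1 / y) (y ^ 4)
      (32 * r ^ (2 ^ (n + 1 + 1)) + 1) (32 * r ^ (2 ^ (n + 1)) + 1) hsym hno (by linarith)
      hyinv0 hyinv hyinv0 hyinv (one_le_pow₀ (by linarith)) (le_of_eq hcast4.symm)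
      (Nat.succ_le_succ (Nat.zero_le _)) hW hF (by rw [hβ]; exact hpal) hsize
    have hno' : No4 c W' := fun a ha b hb d hd e he => hno a (hW'W ha) b (hW'W hb) d (hW'W hd) e
      (hW'W he)
    have hl2 : Real.log W.card ≤ 2 * y * Real.log W'.card := by
      have h1 : 1 / y / 2 * Real.log W.card * (2 * y) ≤ Real.log W'.card * (2 * y) :=
        mul_le_mul_of_nonneg_right hl' (by linarith)
      have h2 : 1 / y / 2 * Real.log W.card * (2 * y) = Real.log W.card := by
        field_simp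
      linarith
    have hstep := ih W' hsym hno' hθ hθ1 hr hW' ?_ ?_ ?_
    · obtain ⟨W'', h1, h2, h3, h4, h5⟩ := hstep
      refine ⟨W'', h1.trans hW'W, h2, h3, h4, ?_⟩
      rw [hy4]
      rw [hy2] at h5
      have h6 : 0 ≤ Real.log W''.card := Real.log_natCast_nonneg _
      have h7 : 2 * y * Real.log W'.card ≤ 2 * y * (y ^ 2 * Real.log W''.card) :=
        mul_le_mul_of_nonneg_left h5 (by linarith)
      have h8 : 2 * y * (y ^ 2 * Real.log W''.card) ≤ y ^ 4 * Real.log W''.card := by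
        have h9 : 2 * y ^ 3 ≤ y ^ 4 := by nlinarith [pow_pos hy00 3]
        nlinarith
      linarith
    · rw [hy2]
      refine boo_flat_mono hF' ?_
      rw [hcast2]
      have hden : 0 < (1 - 1 / y) * β := mul_pos (by linarith) (by linarith)
      rw [div_le_iff₀ hden]
      obtain ⟨S, hS⟩ : ∃ S : ℝ, S = 32 * y ^ 2 + 1 := ⟨_, rfl⟩
      rw [← hS]
      have hS1 : 1 ≤ S := by rw [hS]; nlinarith
      have h1 : 1 + S / (1 / y) ≤ 2 * (S * y) := by
        rw [div_div_eq_mul_div, div_one]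
        nlinarith
      have h2 : (1 + S / (1 / y)) *
          (2 * Real.log ((32 * r ^ (2 ^ (n + 1 + 1)) + 1 : ℕ) : ℝ)) ≤
          2 * (S * y) * (2 * (8 * √y)) := by
        refine mul_le_mul h1 (by linarith) (by linarith) (by positivity)
      have h3 : 3 / 8 * θ ≤ (1 - 1 / y) * β := by
        nlinarith
      have h4 : y ^ 2 * S * (3 / 8 * θ) ≤ y ^ 2 * S * ((1 - 1 / y) * β) :=
        mul_le_mul_of_nonneg_left h3 (by positivity)
      have h5 : 32 * √y ≤ 3 / 8 * θ * y := by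
        have h6 : 128 ≤ θ * √y := by
          rw [div_le_iff₀ hθ] at hsq
          linarith
        nlinarith
      have h7 : 2 * (S * y) * (2 * (8 * √y)) ≤ y ^ 2 * S * (3 / 8 * θ) := by
        have h8 : S * y * (32 * √y) ≤ S * y * (3 / 8 * θ * y) :=
          mul_le_mul_of_nonneg_left h5 (by positivity)
        nlinarith
      linarith
    · refine le_trans (mul_le_mul_of_nonneg_right ?_ (Nat.cast_nonneg _)) hp'
      rw [hz0]
      have h1 : (1 - 2 * (1 / y)) * (1 - 1 / y) ≥ 1 - 3 * (1 / y) := by nlinarith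
      have h2 : β * (1 - 3 * (1 / y)) ≤ (1 - 2 * (1 / y)) * (1 - 1 / y) * β := by
        nlinarith
      have h3 : 1 / y * 30 ≤ 16 * z := by
        rw [one_div, inv_mul_le_iff₀ hy00]
        exact hyz
      have h4 : β - 3 * (1 / y) * β ≥ β - θ * z := by
        have : 3 * (1 / y) * β ≤ 3 * (1 / y) * (5 / 8 * θ) :=
          mul_le_mul_of_nonneg_left hβ2 (by linarith)
        nlinarith
      have h5 : β = θ * (1 / 2 + 1 / 8 * (1 - 8 * z)) := by rw [hβ, hz1]
      have h6 : β - θ * z = θ * (1 / 2 + 1 / 8 * (1 - 16 * z)) := by rw [h5]; ring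
      linarith
    · rw [hy2]
      have h1 : y ^ 4 * (Real.log k + 40) ≤ 2 * y * Real.log W'.card := hlog.trans hl2
      have h2 : 2 * y * (y ^ 2 * (Real.log k + 40)) ≤ y ^ 4 * (Real.log k + 40) := by
        have h9 : 2 * y ^ 3 ≤ y ^ 4 := by nlinarith [pow_pos hy00 3]
        nlinarith
      have h3 : 2 * y * (y ^ 2 * (Real.log k + 40)) ≤ 2 * y * Real.log W'.card := h2.trans h1
      exact le_of_mul_le_mul_left h3 (by linarith)

end Pool.Agent.EGF.H26
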