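import Pool.Agent.EGF.StmtsS

/-!
# Squad EGF, row CRE: the contradiction
-/

set_option autoImplicit false

open Finset

namespace Pool.Agent.EGF.H26

theorem cre_num {M ι τ P Q : ℝ} (hM : 0 < M) (hM1 : M ≤ 1) (hι : ι ≤ M ^ 4 / 1600)
    (hτ : τ ≤ M ^ 2 / 40) (hP : 0 < P)
    (h1 : (M - τ) ^ 2 * ((M - 3 * ι - 10 * τ) * P) ≤ Q) (h2 : M * Q ≤ 7 * ι * P) : False := by
  have hM2 : M ^ 2 ≤ M := by nlinarith
  have hM4 : M ^ 4 ≤ M := by
    have : M ^ 4 = M ^ 2 * M ^ 2 := by ring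
    nlinarith
  -- `M - τ ≥ 39/40 M`
  have a1 : 39 / 40 * M ≤ M - τ := by linarith
  have a2 : 7 / 10 * M ≤ M - 3 * ι - 10 * τ := by linarith
  have a3 : (39 / 40 * M) ^ 2 ≤ (M - τ) ^ 2 := pow_le_pow_left₀ (by positivity) a1 2
  have a4 : (39 / 40 * M) ^ 2 * (7 / 10 * M * P) ≤ (M - τ) ^ 2 * ((M - 3 * ι - 10 * τ) * P) := by
    apply mul_le_mul a3 _ (by positivity) (by positivity)
    exact mul_le_mul_of_nonneg_right a2 hP.le
  have a5 : M * ((39 / 40 * M) ^ 2 * (7 / 10 * M * P)) ≤ 7 * ι * P := by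
    refine le_trans ?_ h2
    exact mul_le_mul_of_nonneg_left (a4.trans h1) hM.le
  have a6 : 7 * ι * P ≤ 7 * (M ^ 4 / 1600) * P := by
    have := mul_le_mul_of_nonneg_right hι hP.le
    linarith
  have a7 : M * ((39 / 40 * M) ^ 2 * (7 / 10 * M * P)) = (39 / 40) ^ 2 * (7 / 10) * (M ^ 4 * P) := by
    ring
  have a8 : 0 < M ^ 4 * P := by positivity
  rw [a7] at a5
  nlinarith

theorem cre (sym : SymStmt) (con : ConStmt) (hig : HigStmt) (cel : CelStmt) : CreStmt := by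
  intro X Y _ _ A B F M ι ρ κ T T0 m n x y W Z hA hB hι hι4 hM hM1 hρ hκ hρκ hT0 hT0T hT0m hT0n
    hL hS hSA hSB hN
  have hM2 : M ^ 2 ≤ M := by nlinarith
  have hM4 : M ^ 4 ≤ M := by
    have : M ^ 4 = M ^ 2 * M ^ 2 := by ring
    nlinarith
  have hT : 0 < T := by
    by_contra hcon
    push Not at hcon
    nlinarith
  have hm : 0 < (m : ℝ) := by
    by_contra hcon
    push Not at hcon
    nlinarith
  have hn : 0 < (n : ℝ) := by
    by_contra hcon
    push Not at hcon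
    nlinarith
  have hι1 : ι ≤ 1 := by linarith
  have hιM : 2 * ι ≤ M := by linarith
  obtain ⟨s1, s2, s3, s4⟩ := sym X Y A B F M ι ρ κ T m n x y W Z hA hB hι hιM hM1 hρ hκ hρκ hT hL
    hSA hSB
  obtain ⟨g1, g2⟩ := hig X Y A B F M ι κ T T0 m n x y W Z hι hι1 hM.le hT0 hT0T hT0m hT0n hS hSA hSB
  obtain ⟨S, hSd⟩ : ∃ S : Finset (ℕ × ℕ), S = range m ×ˢ range n := ⟨_, rfl⟩
  rw [← hSd] at s1 s2 s3 s4 g1 g2
  have hSc : (S.card : ℝ) = m * n := by
    rw [hSd, card_product, card_range, card_range, Nat.cast_mul]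
  have hmem : ∀ p ∈ S, p.1 < m ∧ p.2 < n := by
    intro p hp
    rw [hSd, mem_product, mem_range, mem_range] at hp
    exact hp
  obtain ⟨pp, hpp⟩ : ∃ pp : ℕ × ℕ → ℝ, pp = fun p =>
    (((W p.1).filter fun w => (w, y p.2) ∈ F).card : ℝ) / (W p.1).card := ⟨_, rfl⟩
  obtain ⟨qq, hqq⟩ : ∃ qq : ℕ × ℕ → ℝ, qq = fun p =>
    (((Z p.2).filter fun z => (x p.1, z) ∈ F).card : ℝ) / (Z p.2).card := ⟨_, rfl⟩
  have hW : ∀ p ∈ S, 0 < ((W p.1).card : ℝ) := fun p hp =>
    lt_of_lt_of_le hT (hSA.TW p.1 (hmem p hp).1)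
  have hZ : ∀ p ∈ S, 0 < ((Z p.2).card : ℝ) := fun p hp =>
    lt_of_lt_of_le hT (hSB.TW p.2 (hmem p hp).2)
  have hp01 : ∀ p ∈ S, 0 ≤ pp p ∧ pp p ≤ 1 := by
    intro p hp
    rw [hpp]
    refine ⟨by positivity, ?_⟩
    show _ / _ ≤ (1 : ℝ)
    rw [div_le_one (hW p hp)]
    exact_mod_cast card_filter_le _ _
  have hq01 : ∀ p ∈ S, 0 ≤ qq p ∧ qq p ≤ 1 := by
    intro p hp
    rw [hqq]
    refine ⟨by positivity, ?_⟩
    show _ / _ ≤ (1 : ℝ)
    rw [div_le_one (hZ p hp)]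
    exact_mod_cast card_filter_le _ _
  have c1 := con (ℕ × ℕ) S pp M ι hι hM.le hp01 (by rw [hSc, hpp]; exact s2)
    (by rw [hSc, hpp]; exact g1)
  have c2 := con (ℕ × ℕ) S qq M ι hι hM.le hq01 (by rw [hSc, hqq]; exact s3)
    (by rw [hSc, hqq]; exact g2)
  obtain ⟨Xi, hXi⟩ : ∃ Xi : ℕ × ℕ → ℝ, Xi = fun p =>
    if (x p.1, y p.2) ∈ F then pp p * qq p else 0 := ⟨_, rfl⟩
  have hXi0 : ∀ p ∈ S, 0 ≤ Xi p := by
    intro p hp
    rw [hXi]
    show 0 ≤ if (x p.1, y p.2) ∈ F then pp p * qq p else 0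
    split_ifs
    · exact mul_nonneg (hp01 p hp).1 (hq01 p hp).1
    · exact le_rfl
  -- the cells
  have hcell : ∀ p ∈ S, (((W p.1 ×ˢ Z p.2) ∩ F).card : ℝ) / ((W p.1).card * (Z p.2).card) ≤
      (M + ι) * (1 - Xi p) + 3 * ι := by
    intro p hp
    obtain ⟨hi, hj⟩ := hmem p hp
    have w0 := hW p hp
    have z0 := hZ p hp
    have tW : T0 ≤ ι * (W p.1).card := hT0T.trans (mul_le_mul_of_nonneg_left (hSA.TW _ hi) hι.le)
    have tZ : T0 ≤ ι * (Z p.2).card := hT0T.trans (mul_le_mul_of_nonneg_left (hSB.TW _ hj) hι.le)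
    rw [div_le_iff₀ (mul_pos w0 z0)]
    by_cases hF : (x p.1, y p.2) ∈ F
    · have h := cel X Y A (W p.1) ((W p.1).filter fun w => (w, y p.2) ∈ F) B (Z p.2)
        ((Z p.2).filter fun z => (x p.1, z) ∈ F) F M ι T0 hι hM.le (hSA.WA _ hi) (hSB.WA _ hj)
        (filter_subset _ _) (filter_subset _ _) tW tZ hS (by
          intro w hw z hz
          rw [mem_filter] at hw hz
          exact hN p.1 hi p.2 hj w hw.1 z hz.1 hF hw.2 hz.2)
      refine h.trans (le_of_eq ?_)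
      have e1 : Xi p * ((W p.1).card * (Z p.2).card) =
          (((W p.1).filter fun w => (w, y p.2) ∈ F).card : ℝ) *
            (((Z p.2).filter fun z => (x p.1, z) ∈ F).card : ℝ) := by
        rw [hXi]
        show (if (x p.1, y p.2) ∈ F then pp p * qq p else 0) * _ = _
        rw [if_pos hF, hpp, hqq]
        field_simp
      linear_combination (M + ι) * e1
    · have h := cel X Y A (W p.1) ∅ B (Z p.2) ∅ F M ι T0 hι hM.le (hSA.WA _ hi) (hSB.WA _ hj)
        (empty_subset _) (empty_subset _) tW tZ hS (by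
          intro w hw
          exact absurd hw (notMem_empty w))
      refine h.trans (le_of_eq ?_)
      have e1 : Xi p = 0 := by
        rw [hXi]
        show (if (x p.1, y p.2) ∈ F then pp p * qq p else 0) = 0
        rw [if_neg hF]
      rw [e1, card_empty, card_empty]
      push_cast
      ring
  -- the upper bound
  have hup : M * ∑ p ∈ S, Xi p ≤ 7 * ι * (m * n) := by
    have h1 : (M - 3 * ι) * (m * n) ≤ ∑ p ∈ S, ((M + ι) * (1 - Xi p) + 3 * ι) :=
      s4.trans (sum_le_sum hcell)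
    have h2 : ∑ p ∈ S, ((M + ι) * (1 - Xi p) + 3 * ι) =
        (M + ι) * ((m * n) - ∑ p ∈ S, Xi p) + 3 * ι * (m * n) := by
      rw [sum_add_distrib, ← mul_sum, sum_sub_distrib, sum_const, sum_const, nsmul_eq_mul,
        nsmul_eq_mul, hSc]
      ring
    rw [h2] at h1
    have h3 : 0 ≤ ∑ p ∈ S, Xi p := sum_nonneg hXi0
    nlinarith
  -- the lower bound
  have hlow : (M - √ι) ^ 2 * ((M - 3 * ι - 10 * √ι) * (m * n)) ≤ ∑ p ∈ S, Xi p := by
    obtain ⟨G, hG⟩ : ∃ G : Finset (ℕ × ℕ), G = ((S.filter fun p => (x p.1, y p.2) ∈ F) \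
      (S.filter fun p => pp p < M - √ι)) \ (S.filter fun p => qq p < M - √ι) := ⟨_, rfl⟩
    have hGc : (M - 3 * ι - 10 * √ι) * (m * n) ≤ (G.card : ℝ) := by
      have k1 : ((S.filter fun p => (x p.1, y p.2) ∈ F) \ (S.filter fun p => pp p < M - √ι)).card ≤
          G.card + (S.filter fun p => qq p < M - √ι).card := by
        rw [hG]
        have := le_card_sdiff (S.filter fun p => qq p < M - √ι)
          ((S.filter fun p => (x p.1, y p.2) ∈ F) \ (S.filter fun p => pp p < M - √ι))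
        omega
      have k2 : (S.filter fun p => (x p.1, y p.2) ∈ F).card ≤
          ((S.filter fun p => (x p.1, y p.2) ∈ F) \ (S.filter fun p => pp p < M - √ι)).card +
            (S.filter fun p => pp p < M - √ι).card := by
        have := le_card_sdiff (S.filter fun p => pp p < M - √ι)
          (S.filter fun p => (x p.1, y p.2) ∈ F)
        omega
      have k3 : ((S.filter fun p => (x p.1, y p.2) ∈ F).card : ℝ) ≤
          (G.card : ℝ) + (S.filter fun p => qq p < M - √ι).card +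
            (S.filter fun p => pp p < M - √ι).card := by
        exact_mod_cast k2.trans (Nat.add_le_add_right k1 _)
      rw [hSc] at c1 c2
      linarith
    have hιs : √ι ≤ M ^ 2 / 40 := by
      rw [Real.sqrt_le_left (by positivity)]
      refine hι4.trans (le_of_eq ?_)
      ring
    have hMτ : 0 ≤ M - √ι := by linarith
    have hGX : ∀ p ∈ G, (M - √ι) ^ 2 ≤ Xi p := by
      intro p hp
      rw [hG, mem_sdiff, mem_sdiff, mem_filter, mem_filter, mem_filter] at hp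
      obtain ⟨⟨⟨hpS, hF⟩, h1⟩, h2⟩ := hp
      have h1' : M - √ι ≤ pp p := by
        by_contra hcon
        exact h1 ⟨hpS, not_le.1 hcon⟩
      have h2' : M - √ι ≤ qq p := by
        by_contra hcon
        exact h2 ⟨hpS, not_le.1 hcon⟩
      rw [hXi]
      show _ ≤ if (x p.1, y p.2) ∈ F then pp p * qq p else 0
      rw [if_pos hF, sq]
      exact mul_le_mul h1' h2' hMτ (hp01 p hpS).1
    have hGS : G ⊆ S := by
      intro p hp
      rw [hG, mem_sdiff, mem_sdiff, mem_filter] at hp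
      exact hp.1.1.1
    calc (M - √ι) ^ 2 * ((M - 3 * ι - 10 * √ι) * (m * n)) ≤ (M - √ι) ^ 2 * (G.card : ℝ) :=
          mul_le_mul_of_nonneg_left hGc (by positivity)
      _ = ∑ _p ∈ G, (M - √ι) ^ 2 := by rw [sum_const, nsmul_eq_mul, mul_comm]
      _ ≤ ∑ p ∈ G, Xi p := sum_le_sum hGX
      _ ≤ ∑ p ∈ S, Xi p := sum_le_sum_of_subset_of_nonneg hGS (fun p hp _ => hXi0 p hp)
  have hιs : √ι ≤ M ^ 2 / 40 := by
    rw [Real.sqrt_le_left (by positivity)]
    refine hι4.trans (le_of_eq ?_)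
    ring
  exact cre_num hM hM1 hι4 hιs (mul_pos hm hn) hlow hup

end Pool.Agent.EGF.H26
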