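import Pool.Agent.EGF.StmtsV

/-!
# Squad EGF, row NEV: dense spots exist
-/

set_option autoImplicit false

open Finset

namespace Pool.Agent.EGF.H26

open Pool.Agent.EGF

/-- **Row NEV.** -/
theorem nev (hSpr : SprStmt) : NevStmt := by
  intro V _ k c W s L hsym hflat hL hLs hs A hAW hA3 T hT hTA
  have hA16 : 16 ≤ A.card := by
    by_contra hlt
    push Not at hlt
    have hlt' : (A.card : ℝ) ≤ 16 := by exact_mod_cast hlt.le
    rcases Nat.eq_zero_or_pos A.card with h0 | hpos
    · rw [h0] at hA3
      simp at hA3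
      linarith
    · have hpos' : (0 : ℝ) < A.card := by exact_mod_cast hpos
      have h1 : Real.log A.card ≤ Real.log 16 := Real.log_le_log hpos' hlt'
      have h2 : Real.log 16 = 4 * Real.log 2 := by
        rw [show (16 : ℝ) = 2 ^ 4 by norm_num, Real.log_pow]
        norm_num
      have h3 := Real.log_two_lt_d9
      linarith
  have hflatA : Flat c A s (L * s) := fun S hS hc => hflat S (hS.trans hAW) hc
  obtain ⟨A1, B1, e, hA1, hB1, hdis, hA1n, hB1n, hlA, hlB, hden⟩ :=
    hSpr V k c A s L hsym hflatA hL hLs hs hA16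
  refine ⟨e, ?_⟩
  unfold spt
  rw [Finset.mem_filter]
  refine ⟨Finset.mem_univ _, A1, hA1, B1, hB1, hdis, ?_, ?_, hden⟩
  · have hp : (0 : ℝ) < A1.card := by exact_mod_cast hA1n.card_pos
    exact (Real.log_le_log_iff hT hp).mp (by linarith)
  · have hp : (0 : ℝ) < B1.card := by exact_mod_cast hB1n.card_pos
    exact (Real.log_le_log_iff hT hp).mp (by linarith)

end Pool.Agent.EGF.H26
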